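import Mathlib
import Pool.Agent.Y920.UC.Gen2

/-!
# The class of the bilateral shift of infinite multiplicity contains a translate of every compact set

`H` is a Hilbert space with a Hilbert basis indexed by `ℕ` (for example `ℓ²`), its unitary group is
`H ≃ₗᵢ[ℂ] H`, and `SOT H` is the strong operator topology on it (`Pool/Agent/Y920/UC/Gen2.lean`).

The starting file `Pool/Agent/S15480.lean` proves that the conjugacy class of the bilateral shift of
infinite multiplicity is not Haar null. Here: for every compact set `K` of unitaries (strong operator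
topology) there is one unitary `g` such that `g x` is unitarily equivalent to the bilateral shift of
infinite multiplicity for every `x ∈ K`, and for every probability measure `μ` and `η > 0` there is `g`
with `μ {x : g x is equivalent to the shift} ≥ 1 - η`; the same for `x g`.

The scattering argument is that of the starting file (`Pool/Agent/H534R3/Wave.lean`, and `good_conj`,
adapted in `Gen.lean`); new are the selection of the blocks uniformly on compact sets by Dini's theorem
(`Sel2.lean`) and up to `η` for measures.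
-/

set_option autoImplicit false

open MeasureTheory Filter Topology
open scoped ENNReal InnerProductSpace

namespace Pool.Agent.Results.MP_dd30de_lc.CatchesCompactSets

open Pool.Agent.Y920.UC.Gen Pool.Agent.H534R3

section defs

variable {H : Type} [NormedAddCommGroup H] [InnerProductSpace ℂ H]

/-- Bilateral shift of infinite multiplicity. -/
def IsShift (S : H ≃ₗᵢ[ℂ] H) : Prop :=
  ∃ f : HilbertBasis (ℕ × ℤ) ℂ H, ∀ j n, S (f (j, n)) = f (j, n + 1)

/-- Unitary equivalence: `V S = x V` for some unitary `V`. -/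
def UEquiv (S x : H ≃ₗᵢ[ℂ] H) : Prop :=
  ∃ V : H ≃ₗᵢ[ℂ] H, ∀ v, V (S v) = x (V v)

/-- The unitary equivalence class of `S` contains left and right translates of every compact set of
unitaries (for the strong operator topology). -/
def CatchesCompact (S : H ≃ₗᵢ[ℂ] H) : Prop :=
  ∀ K : Set (H ≃ₗᵢ[ℂ] H), @IsCompact _ (SOT H) K →
    (∃ g : H ≃ₗᵢ[ℂ] H, ∀ x ∈ K, UEquiv S (x.trans g)) ∧
    ∃ g : H ≃ₗᵢ[ℂ] H, ∀ x ∈ K, UEquiv S (g.trans x)

/-- For every Borel probability measure (strong operator topology) left and right translates of the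
unitary equivalence class of `S` contain a Borel set of measure at least `1 - η`. -/
def CatchesMeasures (S : H ≃ₗᵢ[ℂ] H) : Prop :=
  ∀ μ : @Measure (H ≃ₗᵢ[ℂ] H) (@borel _ (SOT H)), @IsProbabilityMeasure _ (@borel _ (SOT H)) μ →
    ∀ η : ℝ≥0∞, η ≠ 0 →
      (∃ g : H ≃ₗᵢ[ℂ] H, ∃ D, @MeasurableSet _ (@borel _ (SOT H)) D ∧ 1 - η ≤ μ D ∧
        ∀ x ∈ D, UEquiv S (x.trans g)) ∧
      ∃ g : H ≃ₗᵢ[ℂ] H, ∃ D, @MeasurableSet _ (@borel _ (SOT H)) D ∧ 1 - η ≤ μ D ∧
        ∀ x ∈ D, UEquiv S (g.trans x)

theorem uequiv_of_isConj {S x : H ≃ₗᵢ[ℂ] H} (h : IsConj S x) : UEquiv S x := by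
  obtain ⟨V, hV⟩ := isConj_iff.1 h
  refine ⟨V, fun v => ?_⟩
  have h1 : V * S = x * V := by rw [← hV]; group
  exact congrArg (fun f : H ≃ₗᵢ[ℂ] H => f v) h1

theorem isConj_swap {S g x : H ≃ₗᵢ[ℂ] H} (h : IsConj S (g * x)) : IsConj S (x * g) :=
  h.trans (isConj_iff.2 ⟨x, by group⟩)

end defs

/-- Let `H` be a Hilbert space with a basis indexed by `ℕ` and `S` a bilateral shift of infinite
multiplicity on `H`. (1) For every compact set `K` of unitaries (strong operator topology) there is `g`
with `g K` in the unitary equivalence class of `S`, and `g` with `K g` in the class. (2) For every Borel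
probability measure and `η ≠ 0` some left and some right translate of the class contains a Borel set of
measure at least `1 - η`. Such `S` exist. -/
theorem result :
    ∀ (H : Type) [NormedAddCommGroup H] [InnerProductSpace ℂ H] [CompleteSpace H],
      HilbertBasis ℕ ℂ H →
      (∀ S : H ≃ₗᵢ[ℂ] H, IsShift S → CatchesCompact S ∧ CatchesMeasures S) ∧
      ∃ S : H ≃ₗᵢ[ℂ] H, IsShift S := by
  intro H _ _ _ e
  constructor
  · rintro S ⟨f, hf⟩
    constructor
    · intro K hK
      obtain ⟨a, s, ha0, h, hgood⟩ := select_compact e K hK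
      obtain ⟨g, hg⟩ := good_conj e S f hf a s ha0 h
      exact ⟨⟨g, fun x hx => uequiv_of_isConj (hg x (hgood x hx))⟩,
        ⟨g, fun x hx => uequiv_of_isConj (isConj_swap (hg x (hgood x hx)))⟩⟩
    · intro μ hμ η hη
      letI M : MeasurableSpace (H ≃ₗᵢ[ℂ] H) := @borel _ (SOT H)
      have hmeas : ∀ m n, Measurable fun x : H ≃ₗᵢ[ℂ] H => r e x m n := by
        intro m n
        exact @Continuous.measurable (H ≃ₗᵢ[ℂ] H) ℝ (SOT H) M
          (@OpensMeasurableSpace.mk (H ≃ₗᵢ[ℂ] H) (SOT H) M le_rfl) _ _ _ _ (entry_continuous e m n)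
      obtain ⟨a, s, ha0, h, hle⟩ := select_measure μ (r e) hmeas (fun x m n => sq_nonneg _)
        (fun x n => r_sum1 e x n) (fun x n => r_sum2 e x n)
        (fun i => (1 / 64 * (1 / 4) ^ i) ^ 2) (fun i => by positivity) η hη
      obtain ⟨g, hg⟩ := good_conj e S f hf a s ha0 h
      have hD : MeasurableSet {x : H ≃ₗᵢ[ℂ] H | ∀ i, Sel.Good (r e) (a i) (s i) (a (i + 1))
          ((1 / 64 * (1 / 4) ^ i) ^ 2) x} := by
        have h1 : {x : H ≃ₗᵢ[ℂ] H | ∀ i, Sel.Good (r e) (a i) (s i) (a (i + 1))
            ((1 / 64 * (1 / 4) ^ i) ^ 2) x} = ⋂ i, {x : H ≃ₗᵢ[ℂ] H | Sel.Good (r e) (a i) (s i)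
            (a (i + 1)) ((1 / 64 * (1 / 4) ^ i) ^ 2) x} := by
          ext x
          simp
        rw [h1]
        refine MeasurableSet.iInter fun i => ?_
        exact (measurableSet_le measurable_const
          (Finset.measurable_fun_sum _ fun m _ => hmeas m (s i))).inter
          (measurableSet_le measurable_const
          (Finset.measurable_fun_sum _ fun m _ => hmeas (s i) m))
      exact ⟨⟨g, _, hD, hle, fun x hx => uequiv_of_isConj (hg x hx)⟩,
        ⟨g, _, hD, hle, fun x hx => uequiv_of_isConj (isConj_swap (hg x hx))⟩⟩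
  · set pos₀ : ℕ × ℤ ≃ ℕ := Denumerable.eqv (ℕ × ℤ) with hpos₀
    obtain ⟨f₀, S₀, hf₀, hS₀⟩ := exists_shift (fun k => e (pos₀ k))
      (e.orthonormal.comp pos₀ pos₀.injective) (e_total e pos₀ pos₀.surjective)
    refine ⟨S₀, f₀, fun j n => ?_⟩
    rw [hf₀, hf₀]
    exact hS₀ j n

end Pool.Agent.Results.MP_dd30de_lc.CatchesCompactSets
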